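import Mathlib

/-!
# Restricted sums with boundedly many summands in `ℤ_p`, all set sizes

The assertion fails for every `β < 1` (and every threshold `n₀`).
-/

set_option autoImplicit false

open Finset

namespace Pool.Agent.Results.MP_329cea_co.EveryBeta

/-- The assertion `(∗)` for a given `β` and a given threshold `n₀`: there is a constant `c` such
that for every prime `p`, every `A ⊆ ℤ_p` with `n₀ ≤ |A| < (1 - β) p / 2`, every `d` and every set
`F ⊆ A × A` of forbidden pairs of maximum degree at most `d`, some `B ⊆ A` with `|B| ≤ c` has at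
least `2|A| - 2d - 1` sums `a + b` with `a ∈ A`, `b ∈ B`, `(a, b) ∉ F`. -/
def Assertion (β : ℝ) (n₀ : ℕ) : Prop :=
  ∃ c : ℕ, ∀ p : ℕ, p.Prime →
    ∀ (A : Finset (ZMod p)) (F : Finset (ZMod p × ZMod p)) (d : ℕ),
      n₀ ≤ A.card → (A.card : ℝ) < (1 - β) * (p : ℝ) / 2 → F ⊆ A ×ˢ A →
      (∀ x : ZMod p, (F.filter (fun q => q.1 = x)).card ≤ d) →
      (∀ x : ZMod p, (F.filter (fun q => q.2 = x)).card ≤ d) →
      ∃ B : Finset (ZMod p), B ⊆ A ∧ B.card ≤ c ∧
        2 * (A.card : ℤ) - 2 * (d : ℤ) - 1 ≤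
          ((((A ×ˢ B) \ F).image (fun q => q.1 + q.2)).card : ℤ)

section construction

variable {p : ℕ} [Fact p.Prime]

/-- The set: two columns of a ladder, closed up by an interval. -/
def In (p M q r : ℕ) (x : ZMod p) : Prop :=
  (∃ j : ℤ, 1 ≤ j ∧ j ≤ q - 2 ∧ x = ((M * j - 1 : ℤ) : ZMod p)) ∨
  (∃ j : ℤ, 1 ≤ j ∧ j ≤ q - 2 ∧ x = ((M * j - 2 : ℤ) : ZMod p)) ∨
  (∃ u : ℤ, 0 ≤ u ∧ u < 2 * M + r ∧ x = ((M * (q - 2) + u : ℤ) : ZMod p))

variable {M q r : ℕ}

theorem cast_p (hp : p = M * q + r) : ((M * q + r : ℤ) : ZMod p) = 0 := by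
  have h : ((p : ℕ) : ZMod p) = 0 := ZMod.natCast_self p
  have h2 : ((M * q + r : ℕ) : ZMod p) = 0 := by rw [← hp]; exact h
  push_cast at h2 ⊢
  exact h2

/-- The reflection `x ↦ t - x` preserves the set, `t = M (q - 2) - 3`. -/
theorem reflect (hp : p = M * q + r) (hM : 3 ≤ M) (hq : 3 ≤ q) {x : ZMod p}
    (hx : In p M q r x) : In p M q r (((M * (q - 2) - 3 : ℤ) : ZMod p) - x) := by
  have h0 := cast_p hp
  rcases hx with ⟨j, h1, h2, rfl⟩ | ⟨j, h1, h2, rfl⟩ | ⟨u, h1, h2, rfl⟩
  · rcases eq_or_lt_of_le h2 with h3 | h3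
    · right; right
      refine ⟨2 * M + r - 2, by omega, by omega, ?_⟩
      rw [h3]
      push_cast at h0 ⊢
      linear_combination -h0
    · right; left
      refine ⟨q - 2 - j, by omega, by omega, ?_⟩
      push_cast
      ring
  · rcases eq_or_lt_of_le h2 with h3 | h3
    · right; right
      refine ⟨2 * M + r - 1, by omega, by omega, ?_⟩
      rw [h3]
      push_cast at h0 ⊢
      linear_combination -h0
    · left
      refine ⟨q - 2 - j, by omega, by omega, ?_⟩
      push_cast
      ring
  · by_cases h3 : u ≤ 2 * M + r - 3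
    · right; right
      refine ⟨2 * M + r - 3 - u, by omega, by omega, ?_⟩
      push_cast at h0 ⊢
      linear_combination -h0
    · have h4 : u = 2 * M + r - 2 ∨ u = 2 * M + r - 1 := by omega
      rcases h4 with rfl | rfl
      · left
        refine ⟨q - 2, by omega, by omega, ?_⟩
        push_cast at h0 ⊢
        linear_combination -h0
      · right; left
        refine ⟨q - 2, by omega, by omega, ?_⟩
        push_cast at h0 ⊢
        linear_combination -h0

/-- Every element has at least three of the four neighbours `x ± 1`, `x ± M` in the set: at most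
one of the four is missing. -/
theorem degree (hp : p = M * q + r) (hM : 3 ≤ M) (hq : 3 ≤ q) {x : ZMod p}
    (hx : In p M q r x) :
    ∃ k : Fin 4, ∀ l : Fin 4, l ≠ k → In p M q r (x + (![1, -1, (M : ZMod p), -(M : ZMod p)] l)) := by
  have h0 := cast_p hp
  have e0 : ∀ P : Prop, ((0 : Fin 4) ≠ 0 → P) := fun P h => absurd rfl h
  have e1 : ∀ P : Prop, ((1 : Fin 4) ≠ 1 → P) := fun P h => absurd rfl h
  have e2 : ∀ P : Prop, ((2 : Fin 4) ≠ 2 → P) := fun P h => absurd rfl h
  have e3 : ∀ P : Prop, ((3 : Fin 4) ≠ 3 → P) := fun P h => absurd rfl h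
  rcases hx with ⟨j, h1, h2, rfl⟩ | ⟨j, h1, h2, rfl⟩ | ⟨u, h1, h2, rfl⟩
  · refine ⟨0, ?_⟩
    rw [Fin.forall_fin_succ, Fin.forall_fin_succ, Fin.forall_fin_succ, Fin.forall_fin_one]
    refine ⟨e0 _, fun _ => ?_, fun _ => ?_, fun _ => ?_⟩
    · right; left
      exact ⟨j, h1, h2, by simp; ring⟩
    · rcases eq_or_lt_of_le h2 with h3 | h3
      · right; right
        refine ⟨M - 1, by omega, by omega, ?_⟩
        rw [h3]; simp; ring
      · left
        exact ⟨j + 1, by omega, by omega, by simp; ring⟩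
    · rcases eq_or_lt_of_le h1 with h3 | h3
      · right; right
        refine ⟨2 * M + r - 1, by omega, by omega, ?_⟩
        rw [← h3]; simp
        push_cast at h0
        linear_combination -h0
      · left
        exact ⟨j - 1, by omega, by omega, by simp; ring⟩
  · refine ⟨1, ?_⟩
    rw [Fin.forall_fin_succ, Fin.forall_fin_succ, Fin.forall_fin_succ, Fin.forall_fin_one]
    refine ⟨fun _ => ?_, e1 _, fun _ => ?_, fun _ => ?_⟩
    · left
      exact ⟨j, h1, h2, by simp; ring⟩
    · rcases eq_or_lt_of_le h2 with h3 | h3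
      · right; right
        refine ⟨M - 2, by omega, by omega, ?_⟩
        rw [h3]; simp; ring
      · right; left
        exact ⟨j + 1, by omega, by omega, by simp; ring⟩
    · rcases eq_or_lt_of_le h1 with h3 | h3
      · right; right
        refine ⟨2 * M + r - 2, by omega, by omega, ?_⟩
        rw [← h3]; simp
        push_cast at h0
        linear_combination -h0
      · right; left
        exact ⟨j - 1, by omega, by omega, by simp; ring⟩
  · have hminus : In p M q r (((M * (q - 2) + u : ℤ) : ZMod p) + -1) := by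
      rcases eq_or_lt_of_le h1 with h3 | h3
      · left
        refine ⟨q - 2, by omega, by omega, ?_⟩
        rw [← h3]; push_cast; ring
      · right; right
        exact ⟨u - 1, by omega, by omega, by push_cast; ring⟩
    by_cases h4 : u < M + r
    · refine ⟨3, ?_⟩
      rw [Fin.forall_fin_succ, Fin.forall_fin_succ, Fin.forall_fin_succ, Fin.forall_fin_one]
      refine ⟨fun _ => ?_, fun _ => ?_, fun _ => ?_, e3 _⟩
      · right; right
        exact ⟨u + 1, by omega, by omega, by simp; ring⟩
      · exact hminus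
      · right; right
        exact ⟨u + M, by omega, by omega, by simp; ring⟩
    · by_cases h5 : u ≤ 2 * M + r - 2
      · refine ⟨2, ?_⟩
        rw [Fin.forall_fin_succ, Fin.forall_fin_succ, Fin.forall_fin_succ, Fin.forall_fin_one]
        refine ⟨fun _ => ?_, fun _ => ?_, e2 _, fun _ => ?_⟩
        · right; right
          exact ⟨u + 1, by omega, by omega, by simp; ring⟩
        · exact hminus
        · right; right
          exact ⟨u - M, by omega, by omega, by simp; ring⟩
      · refine ⟨0, ?_⟩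
        have h6 : u = 2 * M + r - 1 := by omega
        rw [Fin.forall_fin_succ, Fin.forall_fin_succ, Fin.forall_fin_succ, Fin.forall_fin_one]
        refine ⟨e0 _, fun _ => ?_, fun _ => ?_, fun _ => ?_⟩
        · exact hminus
        · left
          refine ⟨1, by omega, by omega, ?_⟩
          rw [h6]; simp
          push_cast at h0
          linear_combination h0
        · right; right
          exact ⟨u - M, by omega, by omega, by simp; ring⟩

end construction

theorem cast_eq_zero {p : ℕ} (z : ℤ) (h1 : z < p) (h2 : -(p : ℤ) < z)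
    (h : ((z : ℤ) : ZMod p) = 0) : z = 0 := by
  rw [ZMod.intCast_zmod_eq_zero_iff_dvd] at h
  exact Int.eq_zero_of_abs_lt_dvd h (by rw [abs_lt]; exact ⟨h2, h1⟩)

/-- The offsets. -/
def off (M : ℕ) : Fin 5 → ℤ := ![0, 1, -1, M, -M]

theorem off_abs (M : ℕ) (hM : 3 ≤ M) (i : Fin 5) : -(M : ℤ) ≤ off M i ∧ off M i ≤ M := by
  unfold off
  fin_cases i <;> simp <;> omega

theorem off_inj (M : ℕ) (hM : 3 ≤ M) (i j : Fin 5) (h : off M i = off M j) : i = j := by
  unfold off at h
  fin_cases i <;> fin_cases j <;> simp at h ⊢ <;> omega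

theorem main (β : ℝ) (hβ : β < 1) (n₀ c : ℕ) :
    ∃ p : ℕ, p.Prime ∧ ∃ (A : Finset (ZMod p)) (F : Finset (ZMod p × ZMod p)) (d : ℕ),
      n₀ ≤ A.card ∧ (A.card : ℝ) < (1 - β) * (p : ℝ) / 2 ∧ F ⊆ A ×ˢ A ∧
      (∀ x : ZMod p, (F.filter (fun q => q.1 = x)).card ≤ d) ∧
      (∀ x : ZMod p, (F.filter (fun q => q.2 = x)).card ≤ d) ∧
      ∀ B : Finset (ZMod p), B ⊆ A → B.card ≤ c →
        ((((A ×ˢ B) \ F).image (fun q => q.1 + q.2)).card : ℤ) <
          2 * (A.card : ℤ) - 2 * (d : ℤ) - 1 := by
  classical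
  -- the parameters
  have hβ' : 0 < 1 - β := by linarith
  obtain ⟨K, hK⟩ := exists_nat_gt (20 / (1 - β))
  obtain ⟨M, hMdef⟩ : ∃ M, M = K + n₀ + 3 := ⟨_, rfl⟩
  have hM : 3 ≤ M := by omega
  obtain ⟨p, hp1, hp⟩ := Nat.exists_infinite_primes (M * M + 2 * M + 10)
  have : Fact p.Prime := ⟨hp⟩
  obtain ⟨q, hq⟩ : ∃ q, q = p / M := ⟨_, rfl⟩
  obtain ⟨r, hr⟩ : ∃ r, r = p % M := ⟨_, rfl⟩
  have hpq : p = M * q + r := by rw [hq, hr]; exact (Nat.div_add_mod p M).symm
  have hrM : r < M := by rw [hr]; exact Nat.mod_lt _ (by omega)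
  have hqM : M ≤ q := by
    rw [hq, Nat.le_div_iff_mul_le (by omega)]
    omega
  have hp2M : 2 * M < p := by omega
  have hqr : (20 : ℝ) ≤ M * (1 - β) := by
    have h1 : 20 < K * (1 - β) := by
      rw [div_lt_iff₀ hβ'] at hK
      exact hK
    have h2 : (K : ℝ) ≤ M := by
      rw [hMdef]; push_cast
      have : (0 : ℝ) ≤ n₀ := by positivity
      linarith
    nlinarith
  -- the sets
  obtain ⟨A, hA⟩ : ∃ A : Finset (ZMod p), A = univ.filter (In p M q r) := ⟨_, rfl⟩
  have memA : ∀ x, x ∈ A ↔ In p M q r x := by intro x; rw [hA]; simp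
  obtain ⟨t, ht⟩ : ∃ t : ZMod p, t = ((M * (q - 2) - 3 : ℤ) : ZMod p) := ⟨_, rfl⟩
  obtain ⟨T, hT⟩ : ∃ T : Finset (ZMod p), T = univ.image (fun l : Fin 5 => t + (off M l : ZMod p)) :=
    ⟨_, rfl⟩
  have hTcard : T.card ≤ 5 := by
    rw [hT]
    exact card_image_le.trans (by simp)
  obtain ⟨F, hF⟩ : ∃ F : Finset (ZMod p × ZMod p),
      F = (A ×ˢ A).filter (fun x => x.1 + x.2 ∉ T) := ⟨_, rfl⟩
  have off_cast : ∀ i j : Fin 5, ((off M i : ℤ) : ZMod p) = ((off M j : ℤ) : ZMod p) → i = j := by
    intro i j h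
    apply off_inj M hM
    have h1 := off_abs M hM i
    have h2 := off_abs M hM j
    have h3 : ((off M i - off M j : ℤ) : ZMod p) = 0 := by
      push_cast; rw [h, sub_self]
    have := cast_eq_zero (off M i - off M j) (by omega) (by omega) h3
    omega
  -- good partners
  have good : ∀ a ∈ A, ∃ Q : Finset (ZMod p), Q ⊆ A ∧ Q.card = 4 ∧ ∀ b ∈ Q, a + b ∈ T := by
    intro a ha
    have h1 := reflect hpq hM (by omega) ((memA a).mp ha)
    obtain ⟨k, hk⟩ := degree hpq hM (by omega) h1
    rw [← ht] at h1 hk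
    have hall : ∀ l : Fin 5, l ≠ k.succ → t - a + (off M l : ZMod p) ∈ A := by
      intro l hl
      rw [memA]
      rcases Fin.eq_zero_or_eq_succ l with rfl | ⟨l', rfl⟩
      · have : ((off M 0 : ℤ) : ZMod p) = 0 := by simp [off]
        rw [this, add_zero]
        exact h1
      · have h2 := hk l' (fun h => hl (by rw [h]))
        have h3 : (![1, -1, (M : ZMod p), -(M : ZMod p)] l') = ((off M l'.succ : ℤ) : ZMod p) := by
          unfold off
          fin_cases l' <;> simp
        rw [h3] at h2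
        exact h2
    refine ⟨(univ.erase k.succ).image (fun l => t - a + (off M l : ZMod p)), ?_, ?_, ?_⟩
    · intro b hb
      rw [mem_image] at hb
      obtain ⟨l, hl, rfl⟩ := hb
      exact hall l (mem_erase.mp hl).1
    · rw [card_image_of_injective, card_erase_of_mem (mem_univ _)]
      · simp
      · intro i j hij
        exact off_cast i j (add_left_cancel hij)
    · intro b hb
      rw [mem_image] at hb
      obtain ⟨l, -, rfl⟩ := hb
      rw [hT, mem_image]
      exact ⟨l, mem_univ _, by ring⟩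
  -- sizes
  have hAlow : 2 * M ≤ A.card := by
    have : (range (2 * M)).card ≤ A.card := by
      apply card_le_card_of_injOn (fun u : ℕ => ((M * (q - 2) + u : ℤ) : ZMod p))
      · intro u hu
        have hu' : u < 2 * M := by simpa using hu
        rw [mem_coe, memA]
        right; right
        exact ⟨u, by omega, by omega, rfl⟩
      · intro u hu v hv huv
        have hu' : u < 2 * M := by simpa using hu
        have hv' : v < 2 * M := by simpa using hv
        have h3 : (((u : ℤ) - v : ℤ) : ZMod p) = 0 := by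
          have huv' : ((M * (q - 2) + u : ℤ) : ZMod p) = ((M * (q - 2) + v : ℤ) : ZMod p) := huv
          push_cast at huv' ⊢
          linear_combination huv'
        have := cast_eq_zero _ (by omega) (by omega) h3
        omega
    rw [card_range] at this
    exact this
  have hAup : A.card ≤ 2 * q + 3 * M + 1 := by
    have hsub : A ⊆ ((range (q + 1)).image (fun j : ℕ => ((M * j - 1 : ℤ) : ZMod p)) ∪
        (range (q + 1)).image (fun j : ℕ => ((M * j - 2 : ℤ) : ZMod p))) ∪
        (range (2 * M + r)).image (fun u : ℕ => ((M * (q - 2) + u : ℤ) : ZMod p)) := by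
      intro x hx
      rw [memA] at hx
      rw [mem_union, mem_union, mem_image, mem_image, mem_image]
      rcases hx with ⟨j, h1, h2, rfl⟩ | ⟨j, h1, h2, rfl⟩ | ⟨u, h1, h2, rfl⟩
      · left; left
        refine ⟨j.toNat, by rw [mem_range]; omega, ?_⟩
        rw [Int.toNat_of_nonneg (by omega)]
      · left; right
        refine ⟨j.toNat, by rw [mem_range]; omega, ?_⟩
        rw [Int.toNat_of_nonneg (by omega)]
      · right
        refine ⟨u.toNat, by rw [mem_range]; omega, ?_⟩
        rw [Int.toNat_of_nonneg (by omega)]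
    have h1 := card_le_card hsub
    have h2 := card_union_le ((range (q + 1)).image (fun j : ℕ => ((M * j - 1 : ℤ) : ZMod p)) ∪
        (range (q + 1)).image (fun j : ℕ => ((M * j - 2 : ℤ) : ZMod p)))
        ((range (2 * M + r)).image (fun u : ℕ => ((M * (q - 2) + u : ℤ) : ZMod p)))
    have h3 := card_union_le ((range (q + 1)).image (fun j : ℕ => ((M * j - 1 : ℤ) : ZMod p)))
        ((range (q + 1)).image (fun j : ℕ => ((M * j - 2 : ℤ) : ZMod p)))
    have h4 := card_image_le (s := range (q + 1)) (f := fun j : ℕ => ((M * j - 1 : ℤ) : ZMod p))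
    have h5 := card_image_le (s := range (q + 1)) (f := fun j : ℕ => ((M * j - 2 : ℤ) : ZMod p))
    have h6 := card_image_le (s := range (2 * M + r))
      (f := fun u : ℕ => ((M * (q - 2) + u : ℤ) : ZMod p))
    rw [card_range] at h4 h5 h6
    omega
  have hdeg : ∀ x : ZMod p, (F.filter (fun q => q.1 = x)).card ≤ A.card - 4 := by
    intro x
    by_cases hx : x ∈ A
    · obtain ⟨Q, hQA, hQ4, hQ⟩ := good x hx
      have h1 : (F.filter (fun q => q.1 = x)).card ≤ (A \ Q).card := by
        apply card_le_card_of_injOn (fun y => y.2)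
        · intro y hy
          rw [mem_coe, mem_filter, hF, mem_filter, mem_product] at hy
          obtain ⟨⟨⟨hy1, hy2⟩, hy3⟩, hy4⟩ := hy
          rw [mem_coe, mem_sdiff]
          refine ⟨hy2, fun hy5 => hy3 ?_⟩
          rw [hy4]
          exact hQ _ hy5
        · intro y hy y' hy' hh
          rw [mem_coe, mem_filter] at hy hy'
          exact Prod.ext (hy.2.trans hy'.2.symm) hh
      rw [card_sdiff_of_subset hQA, hQ4] at h1
      exact h1
    · have : F.filter (fun q => q.1 = x) = ∅ := by
        rw [filter_eq_empty_iff]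
        intro y hy h
        rw [hF, mem_filter, mem_product] at hy
        rw [h] at hy
        exact hx hy.1.1
      rw [this, card_empty]
      exact Nat.zero_le _
  have hdeg2 : ∀ x : ZMod p, (F.filter (fun q => q.2 = x)).card ≤ A.card - 4 := by
    intro x
    refine le_trans (le_of_eq ?_) (hdeg x)
    apply card_bij (fun y _ => (y.2, y.1))
    · intro y hy
      rw [mem_filter, hF, mem_filter, mem_product] at hy ⊢
      exact ⟨⟨⟨hy.1.1.2, hy.1.1.1⟩, by rw [add_comm]; exact hy.1.2⟩, hy.2⟩
    · intro y _ y' _ h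
      rw [Prod.mk.injEq] at h
      exact Prod.ext h.2 h.1
    · intro y hy
      rw [mem_filter, hF, mem_filter, mem_product] at hy
      refine ⟨(y.2, y.1), ?_, rfl⟩
      rw [mem_filter, hF, mem_filter, mem_product]
      exact ⟨⟨⟨hy.1.1.2, hy.1.1.1⟩, by rw [add_comm]; exact hy.1.2⟩, hy.2⟩
  refine ⟨p, hp, A, F, A.card - 4, by omega, ?_, by rw [hF]; exact filter_subset _ _, hdeg, hdeg2,
    ?_⟩
  · have h1 : (A.card : ℝ) ≤ 6 * q := by
      have : A.card ≤ 6 * q := by omega
      exact_mod_cast this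
    have h2 : (M : ℝ) * q ≤ p := by
      have : M * q ≤ p := by omega
      exact_mod_cast this
    have h3 : (0 : ℝ) < q := by
      have : 0 < q := by omega
      exact_mod_cast this
    have h4 : (20 : ℝ) * q ≤ (1 - β) * p := by
      calc (20 : ℝ) * q ≤ (M * (1 - β)) * q := mul_le_mul_of_nonneg_right hqr h3.le
        _ = (1 - β) * (M * q) := by ring
        _ ≤ (1 - β) * p := mul_le_mul_of_nonneg_left h2 hβ'.le
    linarith
  · intro B hBA _
    have h1 : ((A ×ˢ B) \ F).image (fun q => q.1 + q.2) ⊆ T := by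
      intro x hx
      rw [mem_image] at hx
      obtain ⟨y, hy, rfl⟩ := hx
      rw [mem_sdiff, mem_product] at hy
      by_contra hcon
      apply hy.2
      rw [hF, mem_filter, mem_product]
      exact ⟨⟨hy.1.1, hBA hy.1.2⟩, hcon⟩
    have h2 := (card_le_card h1).trans hTcard
    omega

/-- For `β > 0` and any threshold `n₀ ≥ 1` (in particular for `n₀ = 1`) the assertion `(∗)` holds
if and only if `β ≥ 1`; for `β ≥ 1` it is empty. -/
theorem result : ∀ β : ℝ, 0 < β → ∀ n₀ : ℕ, 1 ≤ n₀ → (Assertion β n₀ ↔ 1 ≤ β) := by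
  intro β _ n₀ hn₀
  constructor
  · intro h
    by_contra hcon
    obtain ⟨c, hc⟩ := h
    obtain ⟨p, hp, A, F, d, h1, h2, h3, h4, h5, h6⟩ := main β (not_le.mp hcon) n₀ c
    obtain ⟨B, hB1, hB2, hB3⟩ := hc p hp A F d h1 h2 h3 h4 h5
    have := h6 B hB1 hB2
    omega
  · intro h
    refine ⟨0, ?_⟩
    intro p _ A F d h1 h2 _ _ _
    exfalso
    have h3 : (1 : ℝ) ≤ A.card := by
      have : 1 ≤ A.card := hn₀.trans h1
      exact_mod_cast this
    have h4 : (1 - β) * (p : ℝ) / 2 ≤ 0 := by
      have h5 : (0 : ℝ) ≤ p := by positivity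
      have : (1 - β) * (p : ℝ) ≤ 0 := mul_nonpos_of_nonpos_of_nonneg (by linarith) h5
      linarith
    linarith

end Pool.Agent.Results.MP_329cea_co.EveryBeta
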